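import Pool.Agent.H.MP_7a8a58_gt.h59.MainU

/-!
# MP_7a8a58_gt: existence of closed complete integral affine manifolds

`Good Γ n` (in `h59/Defs.lean`): `Γ` is the group of a closed integral affine `n`-manifold whose
developing map is a homeomorphism onto `ℝⁿ`, with translations in `ℤⁿ`, and for a subgroup of finite
index the linear parts fix the last coordinate.  `VirtTorus Γ q M` (in `h59/TorDefs.lean`): `Γ` has a
subgroup of finite index isomorphic to `ℤ^q ⋊_M ℤ`.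
-/

set_option autoImplicit false

namespace Pool.Agent.Results.MP_7a8a58_gt.SolvBases

open H59E

theorem result :
    -- 1. groups with a subgroup of finite index isomorphic to `ℤ^q ⋊_M ℤ`
    (∀ (Γ : Type) [Group Γ] (q : ℕ) (M : Matrix.GeneralLinearGroup (Fin q) ℤ),
      TF Γ → VirtTorus Γ q M → Good Γ (q + 1)) ∧
    -- 2. groups with a finitely generated subgroup of finite index, nilpotent of class `≤ 2`
    (∀ (Γ : Type) [Group Γ] (H : Subgroup Γ), TF Γ → H.FiniteIndex → H.FG →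
      (∀ x ∈ H, ∀ y ∈ H, ∀ z ∈ H, x * y * x⁻¹ * y⁻¹ * z = z * (x * y * x⁻¹ * y⁻¹)) →
      ∃ n : ℕ, Good Γ n) ∧
    -- 3. the general form: `A` normal abelian, `A B` of finite index, `[B, B] ≤ A`, `A ∩ B` central in `B`
    (∀ (Γ : Type) [Group Γ] (A B : Subgroup Γ), TF Γ → A.Normal → A.FG → B.FG →
      (∀ x ∈ A, ∀ y ∈ A, x * y = y * x) → (∀ x ∈ A, x ∈ B → ∀ y ∈ B, x * y = y * x) →
      (∀ x ∈ B, ∀ y ∈ B, x * y * x⁻¹ * y⁻¹ ∈ A) → (A ⊔ B).FiniteIndex → ∃ n : ℕ, Good Γ n) := by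
  refine ⟨fun Γ _ q M h1 h2 => main_torus h1 h2, ?_, ?_⟩
  · intro Γ _ H h1 h2 h3 h4
    obtain ⟨q, p, -, h⟩ := main_two h1 H h2 h3 h4
    exact ⟨q + p, h⟩
  · intro Γ _ A B h1 h2 h3 h4 h5 h6 h7 h8
    obtain ⟨q, p, -, h⟩ := main_u h1 A B h2 h3 h4 h5 h6 h7 h8
    exact ⟨q + p, h⟩

end Pool.Agent.Results.MP_7a8a58_gt.SolvBases
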